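import Mathlib

/-!
# `X^[*] X` may have a square root with the kernel of `X`, but no `H`-selfadjoint one

`H = diag (1, 1, -1, -1)`, `X = [0, 2 I; I, 0]`, `X^[*] X = diag (-1, -1, -4, -4) = Y ^ 2` with
`Y = J ⊕ 2 J`, `J = [0, -1; 1, 0]`, over the real and over the complex numbers.
-/

set_option autoImplicit false

namespace Pool.Agent.Results.MP_154e02_al.NoSelfadjointRoot

open Matrix

/-- The `H`-adjoint `X^[*] = H⁻¹ X^* H`. -/
noncomputable def adj {𝕜 : Type*} [RCLike 𝕜] {n : ℕ} (H X : Matrix (Fin n) (Fin n) 𝕜) :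
    Matrix (Fin n) (Fin n) 𝕜 := H⁻¹ * Xᴴ * H

/-- The matrices `A` and `B` have the same kernel. -/
def SameKer {𝕜 : Type*} [RCLike 𝕜] {n : ℕ} (A B : Matrix (Fin n) (Fin n) 𝕜) : Prop :=
  ∀ v : Fin n → 𝕜, A *ᵥ v = 0 ↔ B *ᵥ v = 0

/-- Over `𝕜 = ℝ` and over `𝕜 = ℂ` there are an invertible hermitian `H` and matrices `X`, `Y` with
`Y ^ 2 = X^[*] X` and `ker Y = ker X`, such that no `H`-selfadjoint `A` satisfies
`A ^ 2 = X^[*] X` (even without the condition `ker A = ker X`). -/
theorem result (𝕜 : Type*) [RCLike 𝕜] :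
    ∃ (n : ℕ) (H X Y : Matrix (Fin n) (Fin n) 𝕜), H.IsHermitian ∧ IsUnit H ∧
      Y ^ 2 = adj H X * X ∧ SameKer Y X ∧
      ¬ ∃ A : Matrix (Fin n) (Fin n) 𝕜, adj H A = A ∧ A ^ 2 = adj H X * X := by
  set H : Matrix (Fin 4) (Fin 4) 𝕜 := !![1, 0, 0, 0; 0, 1, 0, 0; 0, 0, -1, 0; 0, 0, 0, -1] with hH
  set X : Matrix (Fin 4) (Fin 4) 𝕜 := !![0, 0, 2, 0; 0, 0, 0, 2; 1, 0, 0, 0; 0, 1, 0, 0] with hX
  set Y : Matrix (Fin 4) (Fin 4) 𝕜 := !![0, -1, 0, 0; 1, 0, 0, 0; 0, 0, 0, -2; 0, 0, 2, 0] with hY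
  have hHH : H * H = 1 := by
    ext i j
    fin_cases i <;> fin_cases j <;> simp [hH, Matrix.mul_apply, Fin.sum_univ_four]
  have hinv : H⁻¹ = H := Matrix.inv_eq_left_inv hHH
  have hherm : H.IsHermitian := by
    ext i j
    fin_cases i <;> fin_cases j <;> simp [hH]
  have hN : adj H X * X = !![-1, 0, 0, 0; 0, -1, 0, 0; 0, 0, -4, 0; 0, 0, 0, -4] := by
    have hXt : Xᴴ = !![0, 0, 1, 0; 0, 0, 0, 1; 2, 0, 0, 0; 0, 2, 0, 0] := by
      ext i j
      fin_cases i <;> fin_cases j <;> simp [hX]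
    rw [adj, hinv, hXt, hX, hH]
    ext i j
    fin_cases i <;> fin_cases j <;>
      simp [Matrix.mul_apply, Fin.sum_univ_four] <;> norm_num
  have hY2 : Y ^ 2 = adj H X * X := by
    rw [hN, sq]
    ext i j
    fin_cases i <;> fin_cases j <;>
      simp [hY, Matrix.mul_apply, Fin.sum_univ_four] <;> norm_num
  refine ⟨4, H, X, Y, hherm, IsUnit.of_mul_eq_one _ hHH, hY2, ?_, ?_⟩
  · intro v
    have h1 : Y *ᵥ v = 0 ↔ v = 0 := by
      constructor
      · intro h
        have e0 := congrFun h 0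
        have e1 := congrFun h 1
        have e2 := congrFun h 2
        have e3 := congrFun h 3
        simp [hY, Matrix.mulVec, dotProduct, Fin.sum_univ_four] at e0 e1 e2 e3
        funext i
        fin_cases i <;> simp [e0, e1, e2, e3]
      · rintro rfl
        simp
    have h2 : X *ᵥ v = 0 ↔ v = 0 := by
      constructor
      · intro h
        have e0 := congrFun h 0
        have e1 := congrFun h 1
        have e2 := congrFun h 2
        have e3 := congrFun h 3
        simp [hX, Matrix.mulVec, dotProduct, Fin.sum_univ_four] at e0 e1 e2 e3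
        funext i
        fin_cases i <;> simp [e0, e1, e2, e3]
      · rintro rfl
        simp
    rw [h1, h2]
  · rintro ⟨A, hA, hA2⟩
    rw [hN] at hA2
    have hHA : Aᴴ * H = H * A := by
      have := congrArg (fun M => H * M) hA
      simp only [adj, hinv] at this
      rw [← this, ← Matrix.mul_assoc, ← Matrix.mul_assoc, hHH, Matrix.one_mul]
    have hcomm : A * A ^ 2 = A ^ 2 * A := by
      rw [sq, Matrix.mul_assoc]
    rw [hA2] at hcomm
    have c2 := congrFun (congrFun hcomm 0) 2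
    have c3 := congrFun (congrFun hcomm 0) 3
    have s0 := congrFun (congrFun hHA 0) 0
    have s1 := congrFun (congrFun hHA 0) 1
    have q := congrFun (congrFun hA2 0) 0
    simp [hH, sq, Matrix.mul_apply, Fin.sum_univ_four, Matrix.conjTranspose_apply] at c2 c3 s0 s1 q
    have z2 : A 0 2 = 0 := by
      have : A 0 2 * 3 = 0 := by linear_combination c2
      simpa using this
    have z3 : A 0 3 = 0 := by
      have : A 0 3 * 3 = 0 := by linear_combination c3
      simpa using this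
    rw [z2, z3] at q
    simp only [zero_mul, add_zero] at q
    rw [← s1] at q
    nth_rewrite 1 [← s0] at q
    rw [RCLike.conj_mul, RCLike.conj_mul] at q
    have q' := congrArg RCLike.re q
    norm_cast at q'
    simp at q'
    have h1 := sq_nonneg ‖A 0 0‖
    have h2 := sq_nonneg ‖A 1 0‖
    linarith

end Pool.Agent.Results.MP_154e02_al.NoSelfadjointRoot
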